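import Mathlib
import Pool.Agent.H48Cap.Cert

/-!
# Cap sets of size `2.2216^n`

For all sufficiently large `n` there is a subset of `F_3^n` without nontrivial three-term
progressions which has at least `2.2216^n` elements.  The sets are extended products.  Their new
ingredients are a triple of sets in dimension 24, of sizes `69206016, 157351936, 157351936`, which is
not an extended product of the triple `12, 112, 112` in dimension 6 but of a refinement of it into six
classes, and three new systems of words of length 12.
-/

set_option autoImplicit false

namespace Pool.Agent.Results.MP_b30443_co.CapSetRecordTwo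

/-- `A ⊆ F_3^n` contains no nontrivial three-term progression `x, x + y, x + 2y`, `y ≠ 0`. -/
def ProgFree {n : ℕ} (A : Finset (Fin n → ZMod 3)) : Prop :=
  ∀ x y : Fin n → ZMod 3, x ∈ A → x + y ∈ A → x + 2 • y ∈ A → y = 0

/-- Cap sets in `F_3^n` of size at least `2.2216^n`, for all large `n`. -/
theorem result : ∃ n0 : ℕ, ∀ n : ℕ, n0 ≤ n → ∃ A : Finset (Fin n → ZMod 3),
    ProgFree A ∧ (2.2216 : ℝ) ^ n ≤ (A.card : ℝ) :=
  Pool.Agent.H48Cap.rate

end Pool.Agent.Results.MP_b30443_co.CapSetRecordTwo
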