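import Pool.Agent.L5helper45.CT.Count

set_option autoImplicit false

/-! # The number of progression-free subsets of `F_p^n`

Let `p` be a prime and `3 ≤ k ≤ p`.  For EVERY `n` the number of the subsets of `F_p^n` without
nontrivial `k`-term arithmetic progressions is between `2 ^ r` and `2 ^ (C r)`, `r = r_k(F_p^n)`, with
`C` independent of `n`; and the number of those with `m` elements is at most `(C r / m) ^ (C m)`.
Both follow from a container theorem at the extremal scale: for all `K ≥ C` there are at most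
`exp (C r K ^ (-η))` sets with at most `K r` elements such that every progression-free set is
contained in one of them.

The size of `r` is not used, and not known: the supersaturation needed, `|A| (|A| / r) ^ g / C`
progressions in every set `A` with `|A| ≥ C r`, with `g > k - 1`, comes from random affine maps
`F_p^t → F_p^n`, the inequality `r_k(F_p^(m+t)) ≥ r_k(F_p^m) r_k(F_p^t)` and the lower bound
`r_k(F_p^k) ≥ p ^ (k-1)` (values of a norm form).  For `[N]` in place of `F_p^n` the corresponding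
bound `2 ^ O(r_k(N))` is known for infinitely many `N` only (Balogh, Liu, Sharifzadeh). -/

namespace Pool.Agent.Results.MP_b30443_co.CountingSets

open Finset Pool.Agent.L5helper45.CT

theorem result {p : ℕ} (hp : p.Prime) {k : ℕ} (hk : 3 ≤ k) (hkp : k ≤ p) :
    ∃ (C : ℕ) (η : ℝ), 0 < η ∧ ∀ n : ℕ,
      2 ^ r k p n ≤ {A : Finset (Fin n → ZMod p) | APFree k p n A}.ncard ∧
      {A : Finset (Fin n → ZMod p) | APFree k p n A}.ncard ≤ 2 ^ (C * r k p n) ∧
      (∀ m : ℕ, 1 ≤ m →
        ({A : Finset (Fin n → ZMod p) | APFree k p n A ∧ A.card = m}.ncard : ℝ) ≤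
          (C * (r k p n : ℝ) / m) ^ (C * m)) ∧
      (∀ K : ℝ, C ≤ K → ∃ 𝒞 : Finset (Finset (Fin n → ZMod p)),
        (𝒞.card : ℝ) ≤ Real.exp (C * r k p n * K ^ (-η)) ∧
        (∀ U ∈ 𝒞, (U.card : ℝ) ≤ K * r k p n) ∧
        ∀ A : Finset (Fin n → ZMod p), APFree k p n A → ∃ U ∈ 𝒞, A ⊆ U) := by
  classical
  haveI : Fact p.Prime := ⟨hp⟩
  obtain ⟨C₁, h1⟩ := count_total (p := p) hk hkp
  obtain ⟨C₂, hC₂, h2⟩ := count_size (p := p) hk hkp
  obtain ⟨η, K₁, C₃, hη, hK₁, hC₃, h3⟩ := containers_norm (p := p) hk hkp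
  set C : ℕ := C₁ + C₂ + ⌈K₁⌉₊ + ⌈C₃⌉₊ with hC
  have hCK : K₁ ≤ C := by
    have := Nat.le_ceil K₁
    rw [hC]
    push_cast
    have e1 : (0 : ℝ) ≤ C₁ := Nat.cast_nonneg _
    have e2 : (0 : ℝ) ≤ C₂ := Nat.cast_nonneg _
    have e3 : (0 : ℝ) ≤ (⌈C₃⌉₊ : ℝ) := Nat.cast_nonneg _
    linarith
  have hCC : C₃ ≤ C := by
    have := Nat.le_ceil C₃
    rw [hC]
    push_cast
    have e1 : (0 : ℝ) ≤ C₁ := Nat.cast_nonneg _
    have e2 : (0 : ℝ) ≤ C₂ := Nat.cast_nonneg _
    have e3 : (0 : ℝ) ≤ (⌈K₁⌉₊ : ℝ) := Nat.cast_nonneg _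
    linarith
  refine ⟨C, η, hη, fun n => ?_⟩
  have hset : {A : Finset (Fin n → ZMod p) | APFree k p n A} =
      ↑((univ : Finset (Finset (Fin n → ZMod p))).filter (fun A => APFree k p n A)) := by
    ext A; simp
  have hset' : ∀ m : ℕ, {A : Finset (Fin n → ZMod p) | APFree k p n A ∧ A.card = m} =
      ↑((univ : Finset (Finset (Fin n → ZMod p))).filter
        (fun A => APFree k p n A ∧ A.card = m)) := by
    intro m
    ext A; simp
  rw [hset, Set.ncard_coe_finset]
  refine ⟨two_pow_le (by omega) n, (h1 n).trans ?_, fun m hm => ?_, fun K hK => ?_⟩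
  · apply Nat.pow_le_pow_right (by norm_num)
    exact Nat.mul_le_mul_right _ (by omega)
  · rw [hset', Set.ncard_coe_finset]
    by_cases hr : m ≤ r k p n
    · refine (h2 n m hm).trans ?_
      have hm0 : (0 : ℝ) < m := by exact_mod_cast hm
      have hrm : (1 : ℝ) ≤ (r k p n : ℝ) / m := by
        rw [one_le_div hm0]
        exact_mod_cast hr
      have hC2r : (1 : ℝ) ≤ C₂ := by exact_mod_cast hC₂
      have hle : (C₂ : ℝ) ≤ C := by exact_mod_cast (by omega : C₂ ≤ C)
      have hb1 : (1 : ℝ) ≤ C₂ * (r k p n : ℝ) / m := by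
        rw [mul_div_assoc]
        nlinarith
      have hb2 : C₂ * (r k p n : ℝ) / m ≤ C * (r k p n : ℝ) / m := by gcongr
      calc (C₂ * (r k p n : ℝ) / m) ^ (C₂ * m) ≤ (C₂ * (r k p n : ℝ) / m) ^ (C * m) :=
            pow_le_pow_right₀ hb1 (Nat.mul_le_mul_right _ (by omega))
        _ ≤ _ := pow_le_pow_left₀ (by linarith) hb2 _
    · have : (univ : Finset (Finset (Fin n → ZMod p))).filter
          (fun A => APFree k p n A ∧ A.card = m) = ∅ := by
        rw [filter_eq_empty_iff]
        rintro A _ ⟨hA, hAc⟩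
        have := card_le_r hA
        omega
      rw [this, card_empty, Nat.cast_zero]
      positivity
  · obtain ⟨𝒞, h4, h5, h6⟩ := h3 n K (hCK.trans hK)
    have hK0 : 0 ≤ K := by linarith
    refine ⟨𝒞, h4.trans (Real.exp_le_exp.2 ?_), h5, h6⟩
    gcongr

end Pool.Agent.Results.MP_b30443_co.CountingSets
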