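import Pool.Agent.N389.RB.AP
import Pool.Agent.L5helper32.UnateBdy

set_option autoImplicit false

/-!
# Progression-free sets inside sets with small boundary

Every subset of `F_p^n` without `k`-term progressions has small relative density inside *every* set
`F ⊆ F_p^n`, however sparse, for which only few changes of one coordinate of a point of `F` leave
`F`: on average at most `c n` of the `p n` changes. Such sets can be exponentially small. Examples are
all sets whose indicator function is a sum of real functions of at most `c n` coordinates, and all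
unate (in each coordinate monotone with respect to some order of the letters) sets with at least
`e^(-c n) p^n` elements, for instance all sets `{x : θ ≤ w_1(x_1) + ... + w_n(x_n)}` of this size,
with arbitrary real functions `w_i` of the letters. This is best possible up to the value of `c`.
-/

namespace Pool.Agent.Results.MP_b30443_co.SmallBoundary

open Finset Function

/-- `A ⊆ F_p^n` contains no nontrivial `k`-term arithmetic progression. -/
def APFree (k : ℕ) {p n : ℕ} (A : Finset (Fin n → ZMod p)) : Prop :=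
  ∀ x y : Fin n → ZMod p, (∀ j : ℕ, j < k → x + j • y ∈ A) → y = 0

/-- `A ⊆ F_p^n` contains no `k`-term progression whose common difference is a nonzero vector with
coordinates `0` and `1`. -/
def CubeAPFree (k : ℕ) {p n : ℕ} (A : Finset (Fin n → ZMod p)) : Prop :=
  ∀ x y : Fin n → ZMod p, (∀ i, y i = 0 ∨ y i = 1) → (∀ j : ℕ, j < k → x + j • y ∈ A) → y = 0

/-- The boundary of `F ⊆ F_p^n`: the number of the triples `(x, i, s)`, `x ∈ F`, such that replacing
the coordinate `x i` of `x` by the letter `s` leads out of `F`. There are `p n |F|` triples. -/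
def boundary {p n : ℕ} [NeZero p] (F : Finset (Fin n → ZMod p)) : ℕ :=
  ((F ×ˢ ((univ : Finset (Fin n)) ×ˢ (univ : Finset (ZMod p)))).filter
    fun q => update q.1 q.2.1 q.2.2 ∉ F).card

/-- The indicator function of `F` is a sum of real functions each of which depends on at most `D`
coordinates. -/
def DegreeLe (D : ℕ) {p n : ℕ} (F : Finset (Fin n → ZMod p)) : Prop :=
  ∃ (I : ℕ) (g : Fin I → (Fin n → ZMod p) → ℝ) (T : Fin I → Finset (Fin n)),
    (∀ t, (T t).card ≤ D ∧ ∀ x y, (∀ i ∈ T t, x i = y i) → g t x = g t y) ∧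
    ∀ x, ∑ t, g t x = if x ∈ F then 1 else 0

/-- `F` is unate: for suitable real functions `w i` of the letters, `F` contains with `x` all `y` such
that `w i (x i) ≤ w i (y i)` for all `i`. -/
def Unate {p n : ℕ} (F : Finset (Fin n → ZMod p)) : Prop :=
  ∃ w : Fin n → ZMod p → ℝ, ∀ x ∈ F, ∀ y : Fin n → ZMod p, (∀ i, w i (x i) ≤ w i (y i)) → y ∈ F

lemma boundary_eq {p n : ℕ} [NeZero p] (F : Finset (Fin n → ZMod p)) :
    boundary F = Pool.Agent.N389.RB.bdy F := rfl

lemma degree_ju {D p n : ℕ} {F : Finset (Fin n → ZMod p)} (h : DegreeLe D F) :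
    (fun x => if x ∈ F then (1 : ℝ) else 0) ∈
      Pool.Agent.N389.RB.Ju (ZMod p) (univ : Finset (Fin n)) (D + 1) := by
  classical
  obtain ⟨I, g, T, hg, hs⟩ := h
  have e : (fun x => if x ∈ F then (1 : ℝ) else 0) = ∑ t, g t := by
    funext x
    rw [← hs x, Finset.sum_apply]
  rw [e]
  refine Submodule.sum_mem _ fun t _ => Submodule.subset_span ⟨T t, ?_, (hg t).2⟩
  rw [inter_univ]
  exact Nat.lt_succ_of_le (hg t).1

lemma box_card {p : ℕ} [NeZero p] (k n : ℕ) (hk : 1 ≤ k) (hkp : k ≤ p) :
    (univ.filter fun x : Fin n → ZMod p => ∀ i, (x i).val < k - 1).card = (k - 1) ^ n := by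
  classical
  have h2 : (univ.filter fun s : ZMod p => s.val < k - 1).card = k - 1 := by
    refine Eq.trans ?_ (card_range (k - 1))
    refine card_nbij (fun s => s.val) ?_ ?_ ?_
    · intro s hs
      rw [mem_coe, mem_filter] at hs
      rw [mem_coe, mem_range]
      exact hs.2
    · intro s _ t _ hst
      exact ZMod.val_injective p hst
    · intro a ha
      rw [mem_coe, mem_range] at ha
      refine ⟨(a : ZMod p), ?_, ZMod.val_natCast_of_lt (by omega)⟩
      rw [mem_coe, mem_filter, ZMod.val_natCast_of_lt (by omega)]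
      exact ⟨mem_univ _, ha⟩
  have h3 : (univ.filter fun x : Fin n → ZMod p => ∀ i, (x i).val < k - 1) =
      Fintype.piFinset fun _ : Fin n => univ.filter fun s : ZMod p => s.val < k - 1 := by
    ext x
    simp [Fintype.mem_piFinset]
  rw [h3, Fintype.card_piFinset, prod_const, h2, card_univ, Fintype.card_fin]

lemma box_free {p : ℕ} (hp : p.Prime) [NeZero p] (k n : ℕ) (hk : 2 ≤ k) (hkp : k ≤ p) :
    APFree k (univ.filter fun x : Fin n → ZMod p => ∀ i, (x i).val < k - 1) := by
  classical
  have : Fact p.Prime := ⟨hp⟩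
  intro x y h
  funext i
  by_contra hyi
  have h1 : ∀ j : ℕ, j < k → (x i + j • y i).val < k - 1 := by
    intro j hj
    exact (mem_filter.1 (h j hj)).2 i
  have h2 : (range k).card ≤ (range (k - 1)).card := by
    refine card_le_card_of_injOn (fun j => (x i + j • y i).val) ?_ ?_
    · intro j hj
      rw [mem_coe, mem_range] at hj ⊢
      exact h1 j hj
    · intro j hj j' hj' hjj
      rw [mem_coe, mem_range] at hj hj'
      have h3 := ZMod.val_injective p hjj
      rw [add_right_inj, nsmul_eq_mul, nsmul_eq_mul] at h3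
      have h4 := mul_right_cancel₀ hyi h3
      rw [ZMod.natCast_eq_natCast_iff'] at h4
      rw [Nat.mod_eq_of_lt (by omega), Nat.mod_eq_of_lt (by omega)] at h4
      exact h4
  rw [card_range, card_range] at h2
  omega

lemma box_boundary {p : ℕ} [NeZero p] (k n : ℕ) (hk : 2 ≤ k) (hkp : k ≤ p) :
    boundary (univ.filter fun x : Fin n → ZMod p => ∀ i, (x i).val < k - 1) =
      (p - k + 1) * n * (univ.filter fun x : Fin n → ZMod p => ∀ i, (x i).val < k - 1).card := by
  classical
  have hc : (univ.filter fun s : ZMod p => ¬ s.val < k - 1).card = p - k + 1 := by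
    have h1 := card_filter_add_card_filter_not (s := (univ : Finset (ZMod p)))
      (fun s : ZMod p => s.val < k - 1)
    have h2 : (univ.filter fun s : ZMod p => s.val < k - 1).card = k - 1 := by
      refine Eq.trans ?_ (card_range (k - 1))
      refine card_nbij (fun s => s.val) ?_ ?_ ?_
      · intro s hs
        rw [mem_coe, mem_filter] at hs
        rw [mem_coe, mem_range]
        exact hs.2
      · intro s _ t _ hst
        exact ZMod.val_injective p hst
      · intro a ha
        rw [mem_coe, mem_range] at ha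
        refine ⟨(a : ZMod p), ?_, ZMod.val_natCast_of_lt (by omega)⟩
        rw [mem_coe, mem_filter, ZMod.val_natCast_of_lt (by omega)]
        exact ⟨mem_univ _, ha⟩
    rw [h2, card_univ, ZMod.card] at h1
    omega
  obtain ⟨F, hFdef⟩ : ∃ F : Finset (Fin n → ZMod p),
    F = univ.filter fun x => ∀ i, (x i).val < k - 1 := ⟨_, rfl⟩
  rw [← hFdef, boundary_eq, Pool.Agent.N389.RB.bdy_eq]
  have h1 : ∀ i, Pool.Agent.N389.RB.lv F i = F.card * (p - k + 1) := by
    intro i
    rw [← hc, Pool.Agent.N389.RB.lv, ← card_product]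
    congr 1
    ext ⟨x, s⟩
    rw [mem_filter, mem_product, mem_product, mem_filter]
    simp only [mem_univ, and_true, true_and]
    refine and_congr_right fun hx => ?_
    rw [hFdef, mem_filter] at hx ⊢
    rw [not_and]
    constructor
    · intro h hs
      refine h (mem_univ _) fun i' => ?_
      rcases eq_or_ne i' i with rfl | hii
      · rw [update_self]; exact hs
      · rw [update_of_ne hii]; exact hx.2 i'
    · intro h _ h2
      have := h2 i
      rw [update_self] at this
      exact h this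
  rw [sum_congr rfl fun i _ => h1 i, sum_const, card_univ, Fintype.card_fin, smul_eq_mul]
  ring

/-- **Theorem.** Let `p` be a prime.
(1) Let `1 ≤ m ≤ n` and suppose that subsets of `F_p^m` without nontrivial `k`-term progressions have
at most `r` elements. If `F ⊆ F_p^n` has boundary at most `ε p ⌊n / m⌋ |F|` then every `A ⊆ F_p^n`
without nontrivial `k`-term progressions satisfies `|A ∩ F| ≤ (r / p ^ m + ε) |F|`.
(2) For every `δ > 0` there are `c > 0` and `n₀` such that for all `k` and `n ≥ n₀`, all `F ⊆ F_p^n`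
with boundary at most `c n |F|`, however small `|F|` is, and all `A ⊆ F_p^n` without `k`-term
progressions with a nonzero common difference in `{0,1}^n` we have `|A ∩ F| ≤ δ |F|`.
(3) If the indicator function of `F` is a sum of real functions of at most `D` coordinates, the
boundary of `F` is at most `p D |F|`; and for every `δ > 0` there are `c > 0` and `n₀` such that the
conclusion of (2) holds for all such sets `F`, if `D ≤ c n`.
(4) If `F` is unate and nonempty its boundary is at most `(p - 1) (2 n log (p ^ n / |F|))^(1/2) |F|`;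
and for every `δ > 0` there are `c > 0` and `n₀` such that the conclusion of (2) holds for all unate
sets `F` with at least `e^(- c n) p ^ n` elements.
(5) The sets of all `x` with `θ ≤ w_1(x_1) + ... + w_n(x_n)` are unate, for all real `θ` and all real
functions `w_1, ..., w_n`.
(6) For `2 ≤ k ≤ p` and all `n` some unate set `F ⊆ F_p^n` with `(k - 1) ^ n` elements and boundary
`(p - k + 1) n |F|` has itself no nontrivial `k`-term progressions, so that `|A ∩ F| = |F|` for
`A = F`: in (2), (3) and (4) it is necessary that `c` is small. -/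
theorem result (p : ℕ) [NeZero p] (hp : p.Prime) :
    (∀ (k m n r : ℕ), 1 ≤ m → m ≤ n →
      (∀ B : Finset (Fin m → ZMod p), APFree k B → B.card ≤ r) →
      ∀ (ε : ℝ) (F : Finset (Fin n → ZMod p)),
        (boundary F : ℝ) ≤ ε * p * (n / m : ℕ) * F.card →
        ∀ A : Finset (Fin n → ZMod p), APFree k A →
          ((A ∩ F).card : ℝ) ≤ (r / (p : ℝ) ^ m + ε) * F.card) ∧
    (∀ δ : ℝ, 0 < δ → ∃ c : ℝ, 0 < c ∧ ∃ n₀ : ℕ, ∀ k n : ℕ, n₀ ≤ n →
      ∀ F : Finset (Fin n → ZMod p), (boundary F : ℝ) ≤ c * n * F.card →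
        ∀ A : Finset (Fin n → ZMod p), CubeAPFree k A → ((A ∩ F).card : ℝ) ≤ δ * F.card) ∧
    ((∀ (n D : ℕ) (F : Finset (Fin n → ZMod p)), DegreeLe D F → boundary F ≤ p * D * F.card) ∧
      ∀ δ : ℝ, 0 < δ → ∃ c : ℝ, 0 < c ∧ ∃ n₀ : ℕ, ∀ k n D : ℕ, n₀ ≤ n → (D : ℝ) ≤ c * n →
        ∀ F : Finset (Fin n → ZMod p), DegreeLe D F →
          ∀ A : Finset (Fin n → ZMod p), CubeAPFree k A → ((A ∩ F).card : ℝ) ≤ δ * F.card) ∧
    ((∀ (n : ℕ) (F : Finset (Fin n → ZMod p)), Unate F → F.Nonempty →
        (boundary F : ℝ) ≤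
          ((p : ℝ) - 1) * √(2 * n * Real.log ((p : ℝ) ^ n / F.card)) * F.card) ∧
      ∀ δ : ℝ, 0 < δ → ∃ c : ℝ, 0 < c ∧ ∃ n₀ : ℕ, ∀ k n : ℕ, n₀ ≤ n →
        ∀ F : Finset (Fin n → ZMod p), Unate F → Real.exp (-(c * n)) * (p : ℝ) ^ n ≤ F.card →
          ∀ A : Finset (Fin n → ZMod p), CubeAPFree k A → ((A ∩ F).card : ℝ) ≤ δ * F.card) ∧
    (∀ (n : ℕ) (w : Fin n → ZMod p → ℝ) (θ : ℝ) (F : Finset (Fin n → ZMod p)),
      (∀ x, x ∈ F ↔ θ ≤ ∑ i, w i (x i)) → Unate F) ∧
    (∀ k n : ℕ, 2 ≤ k → k ≤ p → ∃ F : Finset (Fin n → ZMod p), F.card = (k - 1) ^ n ∧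
      boundary F = (p - k + 1) * n * F.card ∧ Unate F ∧ APFree k F) := by
  classical
  have hp0 : (0 : ℝ) < (p : ℝ) := by exact_mod_cast hp.pos
  have hp1 : (1 : ℝ) ≤ (p : ℝ) := by exact_mod_cast hp.one_lt.le
  have part2 : ∀ δ : ℝ, 0 < δ → ∃ c : ℝ, 0 < c ∧ ∃ n₀ : ℕ, ∀ k n : ℕ, n₀ ≤ n →
      ∀ F : Finset (Fin n → ZMod p), (boundary F : ℝ) ≤ c * n * F.card →
        ∀ A : Finset (Fin n → ZMod p), CubeAPFree k A → ((A ∩ F).card : ℝ) ≤ δ * F.card := by
    intro δ hδ
    obtain ⟨c, hc, N, hN⟩ := Pool.Agent.N389.RB.relative_c (p := p) hp δ hδ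
    exact ⟨c, hc, N, fun k n hn F hF A hA => hN k n hn F A hF hA⟩
  have hdeg : ∀ (n D : ℕ) (F : Finset (Fin n → ZMod p)), DegreeLe D F →
      boundary F ≤ p * D * F.card := by
    intro n D F hF
    have h := Pool.Agent.N389.RB.bdy_le F D (degree_ju hF)
    rw [ZMod.card] at h
    exact h
  have hun : ∀ (n : ℕ) (F : Finset (Fin n → ZMod p)), Unate F → F.Nonempty →
        (boundary F : ℝ) ≤
          ((p : ℝ) - 1) * √(2 * n * Real.log ((p : ℝ) ^ n / F.card)) * F.card := by
    rintro n F ⟨w, hw⟩ hne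
    have h := Pool.Agent.L5helper32.UB.bdy_up_le w F hne hw
    rw [ZMod.card] at h
    exact h
  refine ⟨?_, part2, ⟨hdeg, ?_⟩, ⟨hun, ?_⟩, ?_, ?_⟩
  · intro k m n r hm hmn hr ε F hF A hA
    have hJ : 0 < n / m := (Nat.one_le_div_iff (by omega)).2 hmn
    exact Pool.Agent.N389.RB.relative (p := p) (k := k) hm hJ (fun _ => True) (fun _ => True)
      (fun _ _ _ => trivial) (fun B hB => hr B fun x y h => hB x y trivial h) F A ε
      (by rw [← boundary_eq, ← mul_assoc]; exact hF) (fun x y _ h => hA x y h)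
  · intro δ hδ
    obtain ⟨c, hc, N, hN⟩ := part2 δ hδ
    refine ⟨c / p, by positivity, N, fun k n D hn hD F hF A hA => hN k n hn F ?_ A hA⟩
    have h1 : (boundary F : ℝ) ≤ p * D * F.card := by exact_mod_cast hdeg n D F hF
    refine h1.trans (mul_le_mul_of_nonneg_right ?_ (Nat.cast_nonneg _))
    calc (p : ℝ) * D ≤ p * (c / p * n) := mul_le_mul_of_nonneg_left hD hp0.le
      _ = c * n := by field_simp
  · intro δ hδ
    obtain ⟨c, hc, N, hN⟩ := part2 δ hδ
    refine ⟨c ^ 2 / (2 * p ^ 2), by positivity, N, fun k n hn F hF hcard A hA =>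
      hN k n hn F ?_ A hA⟩
    have hFp : (0 : ℝ) < F.card := lt_of_lt_of_le (by positivity) hcard
    have hne : F.Nonempty := by
      rw [← card_pos]
      exact_mod_cast hFp
    refine (hun n F hF hne).trans (mul_le_mul_of_nonneg_right ?_ (Nat.cast_nonneg _))
    have h1 : Real.log ((p : ℝ) ^ n / F.card) ≤ c ^ 2 / (2 * p ^ 2) * n := by
      rw [Real.log_le_iff_le_exp (by positivity), div_le_iff₀ hFp]
      have h2 : Real.exp (c ^ 2 / (2 * p ^ 2) * n) * (Real.exp (-(c ^ 2 / (2 * p ^ 2) * n)) *
          (p : ℝ) ^ n) ≤ Real.exp (c ^ 2 / (2 * p ^ 2) * n) * F.card :=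
        mul_le_mul_of_nonneg_left hcard (Real.exp_pos _).le
      rwa [← mul_assoc, ← Real.exp_add, add_neg_cancel, Real.exp_zero, one_mul] at h2
    have h3 : √(2 * n * Real.log ((p : ℝ) ^ n / F.card)) ≤ c / p * n := by
      apply Real.sqrt_le_iff.2
      refine ⟨by positivity, ?_⟩
      calc 2 * n * Real.log ((p : ℝ) ^ n / F.card) ≤ 2 * n * (c ^ 2 / (2 * p ^ 2) * n) :=
            mul_le_mul_of_nonneg_left h1 (by positivity)
        _ = (c / p * n) ^ 2 := by field_simp
    calc ((p : ℝ) - 1) * √(2 * n * Real.log ((p : ℝ) ^ n / F.card))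
        ≤ ((p : ℝ) - 1) * (c / p * n) := mul_le_mul_of_nonneg_left h3 (by linarith)
      _ ≤ p * (c / p * n) := mul_le_mul_of_nonneg_right (by linarith) (by positivity)
      _ = c * n := by field_simp
  · intro n w θ F hF
    refine ⟨w, fun x hx y hxy => ?_⟩
    rw [hF] at hx ⊢
    exact hx.trans (sum_le_sum fun i _ => hxy i)
  · intro k n hk hkp
    refine ⟨univ.filter fun x => ∀ i, (x i).val < k - 1, box_card k n (by omega) hkp,
      box_boundary k n hk hkp, ?_, box_free hp k n hk hkp⟩
    refine ⟨fun _ s => - (s.val : ℝ), fun x hx y hxy => ?_⟩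
    rw [mem_filter] at hx ⊢
    refine ⟨mem_univ _, fun i => ?_⟩
    have h1 := hxy i
    have h2 : (y i).val ≤ (x i).val := by
      have : ((y i).val : ℝ) ≤ (x i).val := by linarith
      exact_mod_cast this
    exact lt_of_le_of_lt h2 (hx.2 i)

end Pool.Agent.Results.MP_b30443_co.SmallBoundary
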