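import Pool.Agent.L5helper45.CT.RandLow

set_option autoImplicit false

/-! # Progression-free subsets of sparse random subsets of `F_p^n`

Let `p` be a prime, `3 ≤ k ≤ p` and `0 ≤ β < 1`, and take every point of `F_p^n` with probability
`p ^ (-β n)`, independently.  With probability `1 - exp (-c n)` the largest subset without
nontrivial `k`-term progressions of the random set has size `Λ(β) ^ (n + o(n))`, where
`Λ(β) = λ ^ (1 - (k-1) β) p ^ ((k-2) β)` for `β ≤ 1 / (k-1)` and `Λ(β) = p ^ (1 - β)` for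
`β ≥ 1 / (k-1)`, `λ = λ_{k,p}`; uniformly for `0 ≤ β ≤ 1 - ε`.

So for each `β < 1 / (k-1)` the determination of `λ_{k,p}` is equivalent to that of the typical
growth rate `Λ(β)` for the random sets of this density, and `λ_{k,p} < p` (not known for `k ≥ 4`) if
and only if `Λ(β) < p ^ (1 - β)`.

Upper bound: containers with `K r_k(F_p^n)` elements, `K = p ^ (θ n β)`, with the exponent given by
supersaturation at all scales between `r_k(F_p^n)` and `p ^ n`, whose exponent is
`log p / log (p / μ)` for every `μ < λ`.  Lower bound: products of an extremal set of `F_p^(n-t)` with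
`F_p^t`, `t` close to `(k-1) β n`, and deletion. -/

namespace Pool.Agent.Results.MP_b30443_co.SparseRandomSubsets

open Finset Pool.Agent.L5helper45.CT
open Pool.Agent.R535.SP (rp)

/-- `Λ(β) = λ ^ (1 - τ) p ^ (τ - β)`, `τ = min (1, (k-1) β)`, `λ = λ_{k,p}` -/
noncomputable def rate (k p : ℕ) (β : ℝ) : ℝ :=
  lam k p ^ (1 - min 1 (((k : ℝ) - 1) * β)) * (p : ℝ) ^ (min 1 (((k : ℝ) - 1) * β) - β)

theorem rate_eq {k p : ℕ} (hp : p.Prime) (hk : 2 ≤ k) (β : ℝ) :
    rate k p β = Real.exp (lrate k p β) := by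
  haveI : Fact p.Prime := ⟨hp⟩
  have hp0 : (0 : ℝ) < p := by exact_mod_cast hp.pos
  have hl : 0 < lam k p := lt_of_lt_of_le one_pos (one_le_lam hk)
  unfold rate lrate
  rw [Real.rpow_def_of_pos hl, Real.rpow_def_of_pos hp0, ← Real.exp_add]
  congr 1
  ring

theorem result {p : ℕ} [hpf : Fact p.Prime] {k : ℕ} (hk : 3 ≤ k) (hkp : k ≤ p) :
    (∀ ε : ℝ, 0 < ε → ∃ c : ℝ, 0 < c ∧ ∃ n₀ : ℕ, ∀ n : ℕ, n₀ ≤ n → ∀ β : ℝ, 0 ≤ β → β ≤ 1 - ε →
      1 - Real.exp (-(c * n)) ≤
        rp ((p : ℝ) ^ (-(β * n))) (fun S : Finset (Fin n → ZMod p) =>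
          (∀ A ⊆ S, APFree k p n A → (A.card : ℝ) ≤ (rate k p β * Real.exp ε) ^ n) ∧
          ∃ A ⊆ S, APFree k p n A ∧ (rate k p β * Real.exp (-ε)) ^ n ≤ (A.card : ℝ))) ∧
    ∀ β : ℝ, 0 ≤ β → ((k : ℝ) - 1) * β < 1 →
      rate k p β = lam k p ^ (1 - ((k : ℝ) - 1) * β) * (p : ℝ) ^ (((k : ℝ) - 2) * β) ∧
      lam k p = (rate k p β / (p : ℝ) ^ (((k : ℝ) - 2) * β)) ^ (1 / (1 - ((k : ℝ) - 1) * β)) ∧
      (lam k p < p ↔ rate k p β < (p : ℝ) ^ (1 - β)) := by
  classical
  have hp := hpf.out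
  have hp0 : (0 : ℝ) < p := by exact_mod_cast hp.pos
  have hl : 0 < lam k p := lt_of_lt_of_le one_pos (one_le_lam (by omega))
  constructor
  · intro ε hε
    set ε' : ℝ := min ε (1 / 2) with hε'
    have hε'0 : 0 < ε' := lt_min hε (by norm_num)
    have hε'1 : ε' ≤ 1 / 2 := min_le_right _ _
    have hε'2 : ε' ≤ ε := min_le_left _ _
    obtain ⟨n₁, h1⟩ := upper_main (p := p) hk hkp hε'0
    obtain ⟨n₂, h2⟩ := lower_main (p := p) hk hkp hε'0 hε'1
    have hA : Filter.Tendsto (fun n : ℕ => Real.exp ((n : ℝ) * (ε' / 8))) Filter.atTop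
        Filter.atTop :=
      Real.tendsto_exp_atTop.comp (tendsto_natCast_atTop_atTop.atTop_mul_const (by positivity))
    obtain ⟨n₃, h3⟩ := Filter.eventually_atTop.1 (hA.eventually_ge_atTop 6)
    refine ⟨ε' / 8, by positivity, max n₁ (max n₂ n₃), fun n hn β hβ0 hβ1 => ?_⟩
    have hn1 : n₁ ≤ n := (le_max_left _ _).trans hn
    have hn2 : n₂ ≤ n := (le_max_left _ _).trans ((le_max_right _ _).trans hn)
    have hn3 : n₃ ≤ n := (le_max_right _ _).trans ((le_max_right _ _).trans hn)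
    have hn0 : (0 : ℝ) ≤ n := Nat.cast_nonneg _
    have hq : (p : ℝ) ^ (-(β * n)) = Real.exp (-(β * n * Real.log p)) := by
      rw [Real.rpow_def_of_pos hp0]
      congr 1
      ring
    rw [hq]
    set q : ℝ := Real.exp (-(β * n * Real.log p)) with hqdef
    have hq0 : 0 ≤ q := (Real.exp_pos _).le
    have hL : 0 ≤ Real.log p := Real.log_nonneg (by exact_mod_cast hp.one_lt.le)
    have hq1 : q ≤ 1 := by
      rw [hqdef]
      apply Real.exp_le_one_iff.2
      have : 0 ≤ β * n * Real.log p := by positivity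
      linarith
    have ha := h1 n hn1 β hβ0 (by linarith)
    have hb := h2 n hn2 β hβ0 (by linarith)
    have hnot := Pool.Agent.R535.SP.rp_not (p := q) (fun S : Finset (Fin n → ZMod p) =>
      (∀ A ⊆ S, APFree k p n A → (A.card : ℝ) ≤ (rate k p β * Real.exp ε) ^ n) ∧
          ∃ A ⊆ S, APFree k p n A ∧ (rate k p β * Real.exp (-ε)) ^ n ≤ (A.card : ℝ))
    have hr1 : (rate k p β * Real.exp ε) ^ n = Real.exp (n * (lrate k p β + ε)) := by
      rw [rate_eq hp (by omega), ← Real.exp_add, ← Real.exp_nat_mul]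
    have hr2 : (rate k p β * Real.exp (-ε)) ^ n = Real.exp (n * (lrate k p β - ε)) := by
      rw [rate_eq hp (by omega), ← Real.exp_add, ← Real.exp_nat_mul]
      congr 1
    have hmono : rp q (fun S : Finset (Fin n → ZMod p) => ¬
        ((∀ A ⊆ S, APFree k p n A → (A.card : ℝ) ≤ (rate k p β * Real.exp ε) ^ n) ∧
          ∃ A ⊆ S, APFree k p n A ∧ (rate k p β * Real.exp (-ε)) ^ n ≤ (A.card : ℝ))) ≤
        rp q (fun S => (∃ A ⊆ S, APFree k p n A ∧
            Real.exp (n * (lrate k p β + ε')) ≤ (A.card : ℝ)) ∨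
          ¬ ∃ A ⊆ S, APFree k p n A ∧ Real.exp (n * (lrate k p β - ε')) ≤ (A.card : ℝ)) := by
      apply Pool.Agent.R535.SP.rp_mono hq0 hq1
      intro S hS
      by_contra hcon
      push Not at hcon
      obtain ⟨h4, A, hAS, hA, hAc⟩ := hcon
      apply hS
      constructor
      · intro B hBS hB
        refine (h4 B hBS hB).le.trans ?_
        rw [hr1]
        apply Real.exp_le_exp.2
        exact mul_le_mul_of_nonneg_left (by linarith) hn0
      · refine ⟨A, hAS, hA, le_trans ?_ hAc⟩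
        rw [hr2]
        apply Real.exp_le_exp.2
        exact mul_le_mul_of_nonneg_left (by linarith) hn0
    have hfail := hmono.trans (rp_or hq0 hq1 _ _)
    have h6 := h3 n hn3
    have e1 : Real.exp (-(n : ℝ)) ≤ Real.exp (-(n * (ε' / 4))) := by
      apply Real.exp_le_exp.2
      have : (n : ℝ) * (ε' / 4) ≤ n * 1 := mul_le_mul_of_nonneg_left (by linarith) hn0
      linarith
    have e2 : 6 * Real.exp (-(n * (ε' / 4))) ≤ Real.exp (-(ε' / 8 * n)) := by
      have e3 : Real.exp (-(ε' / 8 * n)) = Real.exp (n * (ε' / 8)) * Real.exp (-(n * (ε' / 4))) := by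
        rw [← Real.exp_add]
        congr 1
        ring
      rw [e3]
      exact mul_le_mul_of_nonneg_right h6 (Real.exp_pos _).le
    linarith
  · intro β hβ0 hβ1
    have hs : 0 < 1 - ((k : ℝ) - 1) * β := by linarith
    have h1 : rate k p β = lam k p ^ (1 - ((k : ℝ) - 1) * β) * (p : ℝ) ^ (((k : ℝ) - 2) * β) := by
      unfold rate
      rw [min_eq_right hβ1.le]
      congr 2
      ring
    refine ⟨h1, ?_, ?_⟩
    · rw [h1, mul_div_assoc, div_self (Real.rpow_pos_of_pos hp0 _).ne', mul_one,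
        ← Real.rpow_mul hl.le, mul_one_div_cancel hs.ne', Real.rpow_one]
    · rw [h1]
      have h2 : (p : ℝ) ^ (1 - β) =
          (p : ℝ) ^ (1 - ((k : ℝ) - 1) * β) * (p : ℝ) ^ (((k : ℝ) - 2) * β) := by
        rw [← Real.rpow_add hp0]
        congr 1
        ring
      rw [h2, mul_lt_mul_iff_of_pos_right (Real.rpow_pos_of_pos hp0 _),
        Real.rpow_lt_rpow_iff hl.le hp0.le hs]

end Pool.Agent.Results.MP_b30443_co.SparseRandomSubsets
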